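import Pool.Agent.Q38.LS.LT
import Pool.Agent.TH841.NF.Plc

/-! # Project LS (helper283), job PLC: the embedding belonging to a place, and local squares -/

set_option autoImplicit false

namespace Pool.Agent.Q38.LS

open NumberField IsDedekindDomain Pool.Agent.Q283.LS Pool.Agent.Q283.LQ
open Pool.Agent.TH841.NF (lf mem_lf fix_lf)

section trans

variable {Ω : Type} [Field Ω] [CharZero Ω] {l : ℕ} [Fact l.Prime]

theorem norm_l : ‖(l : PadicAlgCl l)‖ < 1 := by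
  have h2 : ((l : ℕ) : PadicAlgCl l) = algebraMap ℚ_[l] (PadicAlgCl l) (l : ℚ_[l]) := by
    rw [map_natCast]
  have h3 := PadicAlgCl.norm_extends l (l : ℚ_[l])
  rw [h2]
  exact h3.trans_lt Padic.norm_p_lt_one

theorem norm_int_le {A : Type} [Field A] (ι : A →+* PadicAlgCl l) (x : 𝓞 A) :
    ‖ι (algebraMap (𝓞 A) A x)‖ ≤ 1 := by
  let v : Valuation (PadicAlgCl l) NNReal := Valued.v
  have h1 : IsIntegral ℤ (ι (algebraMap (𝓞 A) A x)) := by
    have h2 : IsIntegral ℤ x := RingOfIntegers.isIntegral x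
    exact h2.map (((ι.comp (algebraMap (𝓞 A) A)).toIntAlgHom))
  have h2 : IsIntegral v.integer (ι (algebraMap (𝓞 A) A x)) := h1.tower_top
  have h3 := (Valuation.integer.integers v).mem_of_integral h2
  exact h3

/-- the prime ideal of an embedding -/
noncomputable def qi (ι : Ω →+* PadicAlgCl l) : Ideal (𝓞 Ω) where
  carrier := {z | ‖ι (algebraMap (𝓞 Ω) Ω z)‖ < 1}
  add_mem' := by
    intro a b ha hb
    change ‖ι (algebraMap (𝓞 Ω) Ω (a + b))‖ < 1
    rw [map_add, map_add]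
    exact lt_of_le_of_lt (IsUltrametricDist.norm_add_le_max _ _) (max_lt ha hb)
  zero_mem' := by
    change ‖ι (algebraMap (𝓞 Ω) Ω 0)‖ < 1
    rw [map_zero, map_zero, norm_zero]
    exact zero_lt_one
  smul_mem' := by
    intro c z hz
    change ‖ι (algebraMap (𝓞 Ω) Ω (c * z))‖ < 1
    rw [map_mul, map_mul, norm_mul]
    exact lt_of_le_of_lt (mul_le_of_le_one_left (norm_nonneg _) (norm_int_le ι c)) hz

theorem mem_qi (ι : Ω →+* PadicAlgCl l) (z : 𝓞 Ω) :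
    z ∈ qi ι ↔ ‖ι (algebraMap (𝓞 Ω) Ω z)‖ < 1 := Iff.rfl

theorem l_mem (ι : Ω →+* PadicAlgCl l) : (l : 𝓞 Ω) ∈ qi ι := by
  rw [mem_qi, map_natCast, map_natCast]
  exact norm_l

theorem qi_prime (ι : Ω →+* PadicAlgCl l) : (qi ι).IsPrime := by
  constructor
  · intro h
    have h1 : (1 : 𝓞 Ω) ∈ qi ι := by rw [h]; trivial
    rw [mem_qi, map_one, map_one, norm_one] at h1
    exact lt_irrefl _ h1
  · intro a b hab
    rw [mem_qi, map_mul, map_mul, norm_mul] at hab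
    by_contra hcon
    rw [not_or, mem_qi, mem_qi, not_lt, not_lt] at hcon
    have h3 := mul_le_mul hcon.1 hcon.2 zero_le_one (norm_nonneg _)
    rw [one_mul] at h3
    exact absurd hab (not_lt.2 h3)

theorem comap_eq (Q : Ideal (𝓞 Ω)) (hQ : Q.IsPrime) (hl : (l : 𝓞 Ω) ∈ Q) :
    Q.comap (algebraMap ℤ (𝓞 Ω)) = Ideal.span {(l : ℤ)} := by
  have hp : Prime (l : ℤ) := Nat.prime_iff_prime_int.1 Fact.out
  have hmax : (Ideal.span {(l : ℤ)}).IsMaximal :=
    PrincipalIdealRing.isMaximal_of_irreducible hp.irreducible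
  symm
  refine hmax.eq_of_le (Ideal.comap_ne_top _ hQ.ne_top) ?_
  rw [Ideal.span_singleton_le_iff_mem, Ideal.mem_comap]
  simpa using hl

variable [IsAlgClosed Ω] [Algebra.IsAlgebraic ℚ Ω]

/-- Transitivity on the primes above `l`. -/
theorem exists_move (Q Q' : Ideal (𝓞 Ω)) (hQ : Q.IsPrime) (hQ' : Q'.IsPrime)
    (hl : (l : 𝓞 Ω) ∈ Q) (hl' : (l : 𝓞 Ω) ∈ Q') :
    ∃ g : Ω →+* Ω, ∀ z z' : 𝓞 Ω, (z' : Ω) = g (z : Ω) → (z ∈ Q' ↔ z' ∈ Q) := by
  classical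
  have hcl : IsAlgClosure ℚ Ω := ⟨inferInstance, inferInstance⟩
  have hgal : IsGalois ℚ Ω := IsAlgClosure.isGalois ℚ Ω
  have h1 : SMulCommClass (Gal(Ω/ℚ)) ℤ (𝓞 Ω) := by
    refine ⟨fun g a b => ?_⟩
    exact smul_comm g a b
  have h2 : Algebra.IsInvariant ℤ (𝓞 Ω) (Gal(Ω/ℚ)) := by
    refine ⟨fun b hb => ?_⟩
    have h1 : (b : Ω) ∈ (⊥ : IntermediateField ℚ Ω) := by
      rw [InfiniteGalois.mem_bot_iff_fixed]
      intro g
      have := congrArg (fun z : 𝓞 Ω => (z : Ω)) (hb g)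
      exact this
    obtain ⟨k, hk⟩ := IntermediateField.mem_bot.1 h1
    have h2 : IsIntegral ℤ k := by
      have h3 : IsIntegral ℤ (algebraMap ℚ Ω k) := by
        rw [hk]
        exact b.2
      exact (isIntegral_algebraMap_iff (algebraMap ℚ Ω).injective).1 h3
    obtain ⟨n, hn⟩ := IsIntegrallyClosed.isIntegral_iff.1 h2
    refine ⟨n, ?_⟩
    apply RingOfIntegers.ext
    rw [← hk, ← hn]
    simp
  let _ : TopologicalSpace (𝓞 Ω) := ⊥
  have : DiscreteTopology (𝓞 Ω) := ⟨rfl⟩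
  have : ContinuousSMul (Gal(Ω/ℚ)) (𝓞 Ω) := by
    rw [continuousSMul_iff_stabilizer_isOpen]
    intro x
    have h1 := stabilizer_isOpen_of_isIntegral (K := ℚ) (x : Ω)
    convert h1 using 2
    ext g
    rw [MulAction.mem_stabilizer_iff, MulAction.mem_stabilizer_iff]
    constructor
    · intro h
      exact congrArg (fun z : 𝓞 Ω => (z : Ω)) h
    · intro h
      exact RingOfIntegers.ext h
  obtain ⟨g, hg⟩ := Algebra.IsInvariant.exists_smul_of_under_eq_of_profinite (A := ℤ)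
    (G := Gal(Ω/ℚ)) Q Q'
    ((comap_eq Q hQ hl).trans (comap_eq Q' hQ' hl').symm)
  refine ⟨((g⁻¹ : Gal(Ω/ℚ)) : Ω →+* Ω), fun z z' hz => ?_⟩
  rw [hg, Ideal.mem_pointwise_smul_iff_inv_smul_mem]
  have h5 : g⁻¹ • z = z' := RingOfIntegers.ext hz.symm
  rw [h5]

/-- the embedding belonging to a place -/
theorem exists_j (F : IntermediateField ℚ Ω) [NumberField F] (v : HeightOneSpectrum (𝓞 F))
    (hl : (l : 𝓞 F) ∈ v.asIdeal) : ∃ j : Ω →+* PadicAlgCl l,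
      ∀ z : 𝓞 F, z ∈ v.asIdeal ↔ ‖j ((z : F) : Ω)‖ < 1 := by
  have hv := v.isPrime
  have hinj : Function.Injective (algebraMap (𝓞 F) (𝓞 Ω)) :=
    FaithfulSMul.algebraMap_injective (𝓞 F) (𝓞 Ω)
  obtain ⟨Q, -, hQ, hQv⟩ := Ideal.exists_ideal_over_prime_of_isIntegral v.asIdeal
    (⊥ : Ideal (𝓞 Ω)) (by
      rw [← RingHom.ker_eq_comap_bot, (RingHom.injective_iff_ker_eq_bot _).1 hinj]
      exact bot_le)
  have hlQ : (l : 𝓞 Ω) ∈ Q := by
    have h1 : (l : 𝓞 F) ∈ Q.comap (algebraMap (𝓞 F) (𝓞 Ω)) := by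
      rw [hQv]
      exact hl
    rw [Ideal.mem_comap, map_natCast] at h1
    exact h1
  let j0 : Ω →ₐ[ℚ] PadicAlgCl l := IsAlgClosed.lift
  obtain ⟨g, hg⟩ := exists_move (qi (j0 : Ω →+* PadicAlgCl l)) Q (qi_prime _) hQ (l_mem _) hlQ
  refine ⟨(j0 : Ω →+* PadicAlgCl l).comp g, fun z => ?_⟩
  have hz : IsIntegral ℤ (g ((algebraMap (𝓞 F) (𝓞 Ω) z : 𝓞 Ω) : Ω)) :=
    map_isIntegral_int g (RingOfIntegers.isIntegral_coe _)
  obtain ⟨z', hz'⟩ : ∃ z' : 𝓞 Ω, (z' : Ω) = g ((algebraMap (𝓞 F) (𝓞 Ω) z : 𝓞 Ω) : Ω) :=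
    ⟨⟨_, hz⟩, rfl⟩
  have h1 := hg (algebraMap (𝓞 F) (𝓞 Ω) z) z' hz'
  rw [mem_qi] at h1
  have h2 : algebraMap (𝓞 F) (𝓞 Ω) z ∈ Q ↔ z ∈ v.asIdeal := by
    rw [← hQv, Ideal.mem_comap]
  rw [← h2, h1]
  have h3 : algebraMap (𝓞 Ω) Ω z' = g ((z : F) : Ω) := hz'
  rw [h3]
  rfl

omit [IsAlgClosed Ω] [Algebra.IsAlgebraic ℚ Ω] in
/-- lifting of automorphisms -/
theorem exists_lift (ι : Ω →+* PadicAlgCl l) [Normal ℚ Ω]
    (σ : PadicAlgCl l ≃ₐ[ℚ_[l]] PadicAlgCl l) : ∃ σ' : Ω ≃ₐ[ℚ] Ω, ∀ z, σ (ι z) = ι (σ' z) := by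
  let _ : Algebra Ω (PadicAlgCl l) := ι.toAlgebra
  have _ : IsScalarTower ℚ Ω (PadicAlgCl l) := IsScalarTower.of_algebraMap_eq fun x => by
    rw [eq_ratCast, eq_ratCast]
    exact (map_ratCast ι x).symm
  let φ : Ω →ₐ[ℚ] PadicAlgCl l :=
    { (σ : PadicAlgCl l →+* PadicAlgCl l).comp ι with
      commutes' := fun x => by
        change σ (ι (algebraMap ℚ Ω x)) = _
        rw [eq_ratCast, eq_ratCast, map_ratCast, map_ratCast] }
  refine ⟨Normal.algHomEquivAut ℚ (PadicAlgCl l) Ω φ, fun z => ?_⟩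
  have h1 := (Normal.algHomEquivAut ℚ (PadicAlgCl l) Ω).symm_apply_apply φ
  exact (DFunLike.congr_fun h1 z).symm

end trans

section val

variable {F : Type} [Field F] [NumberField F] {l : ℕ} [Fact l.Prime] (j : F →+* PadicAlgCl l)
  (v : HeightOneSpectrum (𝓞 F))

theorem val_le (h : ∀ z : 𝓞 F, z ∈ v.asIdeal ↔ ‖j (z : F)‖ < 1) {x : F}
    (hx : v.valuation F x ≤ 1) : ‖j x‖ ≤ 1 ∧ (v.valuation F x < 1 → ‖j x‖ < 1) := by
  obtain ⟨n, d, hnd⟩ := v.exists_primeCompl_mul_eq_of_integer x hx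
  have hd : ‖j (algebraMap (𝓞 F) F d)‖ = 1 := by
    refine le_antisymm (norm_int_le j _) ?_
    have h1 : (d : 𝓞 F) ∉ v.asIdeal := d.2
    rw [h] at h1
    exact not_lt.1 h1
  have h1 : ‖j x‖ = ‖j (algebraMap (𝓞 F) F n)‖ := by
    rw [← hnd, map_mul, norm_mul, hd, mul_one]
  refine ⟨?_, fun hx1 => ?_⟩
  · rw [h1]
    exact norm_int_le j n
  · rw [h1]
    refine (h n).1 ?_
    rw [← v.valuation_lt_one_iff_mem (K := F)]
    change v.valuation F (algebraMap (𝓞 F) F n) < 1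
    rw [← hnd, map_mul]
    exact mul_lt_one_of_nonneg_of_lt_one_left zero_le' hx1 (v.valuation_le_one d)

theorem val_iff (h : ∀ z : 𝓞 F, z ∈ v.asIdeal ↔ ‖j (z : F)‖ < 1) (x : F) :
    v.valuation F x < 1 ↔ ‖j x‖ < 1 := by
  constructor
  · intro hx
    exact (val_le j v h hx.le).2 hx
  · intro hx
    by_contra hc
    rw [not_lt] at hc
    have hx0 : x ≠ 0 := by
      rintro rfl
      rw [map_zero] at hc
      exact absurd hc (by simp)
    have h1 : v.valuation F x⁻¹ ≤ 1 := by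
      rw [map_inv₀]
      exact inv_le_one_of_one_le₀ hc
    have h2 := (val_le j v h h1).1
    rw [map_inv₀, norm_inv] at h2
    have h3 : 0 < ‖j x‖ := norm_pos_iff.2 ((map_ne_zero j).2 hx0)
    have h4 := one_lt_inv₀ h3 |>.2 hx
    linarith

omit [NumberField F] in
theorem padic_mem (a : ℚ_[l]) :
    algebraMap ℚ_[l] (PadicAlgCl l) a ∈ j.fieldRange.topologicalClosure := by
  have h1 : a ∈ closure (Set.range ((↑) : ℚ → ℚ_[l])) := Padic.denseRange_ratCast l a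
  have h2 : Continuous (algebraMap ℚ_[l] (PadicAlgCl l)) := continuous_algebraMap _ _
  have h3 := image_closure_subset_closure_image h2 ⟨a, h1, rfl⟩
  refine closure_mono ?_ h3
  rintro _ ⟨_, ⟨q, rfl⟩, rfl⟩
  refine ⟨(q : F), ?_⟩
  rw [map_ratCast, map_ratCast]

/-- `j F` is dense in the local field -/
theorem dense_lf {z : PadicAlgCl l} (hz : z ∈ lf j) {ε : ℝ} (hε : 0 < ε) :
    ∃ u : F, ‖z - j u‖ < ε := by
  have h1 : z ∈ j.fieldRange.topologicalClosure := by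
    unfold lf at hz
    induction hz using IntermediateField.adjoin_induction with
    | mem z hz =>
      obtain ⟨i, rfl⟩ := hz
      exact Subfield.le_topologicalClosure _ ⟨_, rfl⟩
    | algebraMap z => exact padic_mem j z
    | add y z _ _ hy hz => exact add_mem hy hz
    | mul y z _ _ hy hz => exact mul_mem hy hz
    | inv y _ hy => exact inv_mem hy
  have h2 : z ∈ closure (j.fieldRange : Set (PadicAlgCl l)) := h1
  rw [Metric.mem_closure_iff] at h2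
  obtain ⟨b, ⟨u, rfl⟩, hu⟩ := h2 ε hε
  rw [dist_eq_norm] at hu
  exact ⟨u, hu⟩

end val

theorem plc : Pool.Agent.Q283.LS.S_PLC := by
  intro Ω _ _ _ _ F _ v l _ hl
  obtain ⟨j, hj⟩ := exists_j F v hl
  let jF : F →+* PadicAlgCl l := j.comp (algebraMap F Ω)
  have hval : ∀ x : F, v.valuation F x < 1 ↔ ‖j (x : Ω)‖ < 1 := val_iff jF v hj
  refine ⟨j, hval, ?_⟩
  intro a y ha hy hfix n
  have hcl : IsAlgClosure ℚ Ω := ⟨inferInstance, inferInstance⟩
  have hgal : IsGalois ℚ Ω := IsAlgClosure.isGalois ℚ Ω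
  have hy0 : y ≠ 0 := by
    rintro rfl
    apply ha
    have h1 : (a : Ω) = 0 := by rw [← hy]; simp
    exact_mod_cast h1
  -- `j y` is in the local field
  have hmem : j y ∈ lf jF := by
    rw [← InfiniteGalois.fixedField_fixingSubgroup (lf jF), IntermediateField.mem_fixedField_iff]
    intro σ hσ
    rw [IntermediateField.mem_fixingSubgroup_iff] at hσ
    obtain ⟨σ', hσ'⟩ := exists_lift j σ
    have h1 : σ' ∈ F.fixingSubgroup := by
      rw [IntermediateField.mem_fixingSubgroup_iff]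
      intro x hx
      apply j.injective
      rw [← hσ']
      exact hσ _ (mem_lf jF ⟨x, hx⟩)
    rw [hσ', hfix σ' h1 ⟨σ, hσ'⟩]
  obtain ⟨π, hπ⟩ := v.valuation_exists_uniformizer F
  have hπ0 : π ≠ 0 := by
    rintro rfl
    rw [map_zero] at hπ
    exact WithZero.exp_ne_zero hπ.symm
  have hnπ : 0 < ‖j (π : Ω)‖ := by
    rw [norm_pos_iff]
    refine (map_ne_zero j).2 ?_
    exact_mod_cast hπ0
  have hnπ1 : ‖j (π : Ω)‖ < 1 := by
    rw [← hval, hπ, ← WithZero.exp_zero, WithZero.exp_lt_exp]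
    norm_num
  have hny : 0 < ‖j y‖ := norm_pos_iff.2 ((map_ne_zero j).2 hy0)
  obtain ⟨u, hu⟩ := dense_lf jF hmem (ε := ‖j (π : Ω)‖ ^ n * ‖j y‖) (by positivity)
  have hju : jF u = j (u : Ω) := rfl
  rw [hju] at hu
  have hlt : ‖j y - j (u : Ω)‖ < ‖j y‖ := by
    refine hu.trans_le ?_
    exact mul_le_of_le_one_left hny.le (pow_le_one₀ hnπ.le hnπ1.le)
  have hnu : ‖j (u : Ω)‖ = ‖j y‖ := by
    have h1 := IsUltrametricDist.norm_eq_of_add_norm_lt_max (x := j (u : Ω)) (y := -(j y)) (by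
      rw [← sub_eq_add_neg, norm_sub_rev]
      refine hlt.trans_le ?_
      rw [norm_neg]
      exact le_max_right _ _)
    rw [norm_neg] at h1
    exact h1
  have hu0 : (u : Ω) ≠ 0 := by
    intro h0
    rw [h0, map_zero, norm_zero] at hnu
    linarith
  have hu0' : u ≠ 0 := by
    rintro rfl
    exact hu0 rfl
  refine ⟨u⁻¹, ?_⟩
  have hpn : v.valuation F (π ^ n) = WithZero.exp (-(n : ℤ)) := by
    rw [map_pow, hπ, ← WithZero.exp_nsmul]
    congr 1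
    simp
  rw [← hpn]
  have hpn0 : π ^ n ≠ 0 := pow_ne_zero _ hπ0
  have hkey : v.valuation F ((a * u⁻¹ ^ 2 - 1) / π ^ n) < 1 := by
    rw [hval]
    have h1 : (((a * u⁻¹ ^ 2 - 1) / π ^ n : F) : Ω) =
        ((y - u) * (y + u)) / ((u : Ω) ^ 2 * (π : Ω) ^ n) := by
      push_cast
      rw [← hy]
      have hπΩ : (π : Ω) ≠ 0 := by exact_mod_cast hπ0
      field_simp
      ring
    rw [h1, map_div₀, map_mul, map_mul, map_pow, map_pow, norm_div, norm_mul, norm_mul, norm_pow,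
      norm_pow, hnu, map_sub, map_add]
    have h2 : ‖j y + j (u : Ω)‖ ≤ ‖j y‖ := by
      refine (IsUltrametricDist.norm_add_le_max _ _).trans ?_
      rw [hnu, max_self]
    rw [div_lt_one (by positivity)]
    calc ‖j y - j (u : Ω)‖ * ‖j y + j (u : Ω)‖ ≤ ‖j y - j (u : Ω)‖ * ‖j y‖ :=
          mul_le_mul_of_nonneg_left h2 (norm_nonneg _)
      _ < (‖j (π : Ω)‖ ^ n * ‖j y‖) * ‖j y‖ := mul_lt_mul_of_pos_right hu hny
      _ = ‖j y‖ ^ 2 * ‖j (π : Ω)‖ ^ n := by ring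
  rw [map_div₀] at hkey
  have h3 : v.valuation F (π ^ n) ≠ 0 := (Valuation.ne_zero_iff _).2 hpn0
  rwa [div_lt_one₀ (zero_lt_iff.2 h3)] at hkey

end Pool.Agent.Q38.LS
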