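import Pool.Agent.Q283.LS.Stm
import Pool.Agent.W571.RK.L3

/-! # Project LS (helper283), job LT: cocycles trivial on inertia have finite order -/

set_option autoImplicit false

namespace Pool.Agent.Q38.LS

open Pool.Agent.Q283.LS

section

variable {l : ℕ} [Fact l.Prime]

theorem norm_aut (σ : PadicAlgCl l ≃ₐ[ℚ_[l]] PadicAlgCl l) (x : PadicAlgCl l) : ‖σ x‖ = ‖x‖ :=
  (spectralNorm_eq_of_equiv (K := ℚ_[l]) σ x).symm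

/-- an automorphism maps a root of unity to a power -/
theorem root_pow (σ : PadicAlgCl l ≃ₐ[ℚ_[l]] PadicAlgCl l) {η : PadicAlgCl l} {M : ℕ}
    (hM : M ≠ 0) (hη : η ^ M = 1) : ∃ a : ℕ, σ η = η ^ a := by
  have : NeZero M := ⟨hM⟩
  obtain ⟨a, ha⟩ := map_rootsOfUnity_eq_pow_self σ (rootsOfUnity.mkOfPowEq η hη)
  refine ⟨a, ?_⟩
  simpa using ha

/-- two automorphisms commute on the residue field -/
theorem res_comm (σ τ : PadicAlgCl l ≃ₐ[ℚ_[l]] PadicAlgCl l) {z : PadicAlgCl l} (hz : ‖z‖ ≤ 1) :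
    ‖σ (τ z) - τ (σ z)‖ < 1 := by
  obtain ⟨η, h1, h2⟩ := Pool.Agent.W571.RK.l3 l z hz
  have h3 : σ (τ η) = τ (σ η) := by
    rcases h1 with rfl | ⟨M, hM, hη⟩
    · simp
    · have hM0 : M ≠ 0 := by
        rintro rfl
        exact hM (dvd_zero l)
      obtain ⟨a, ha⟩ := root_pow σ hM0 hη
      obtain ⟨b, hb⟩ := root_pow τ hM0 hη
      rw [hb, map_pow, ha, map_pow, hb, ← pow_mul, ← pow_mul, mul_comm]
  have h4 : σ (τ z) - τ (σ z) = σ (τ (z - η)) - τ (σ (z - η)) := by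
    rw [map_sub, map_sub, map_sub, map_sub, h3]
    ring
  rw [h4]
  refine lt_of_le_of_lt (Pool.Agent.W571.RK.norm_sub_le_max' _ _) (max_lt ?_ ?_)
  · rw [norm_aut, norm_aut]
    exact h2
  · rw [norm_aut, norm_aut]
    exact h2

end

section

variable {Ω : Type} [Field Ω] [CharZero Ω]

theorem chi_mul (σ τ : Ω ≃ₐ[ℚ] Ω) : chi (σ * τ) = chi σ * chi τ := by
  unfold chi
  have h : ((σ * τ : Ω ≃ₐ[ℚ] Ω) : Ω ≃+* Ω) = (σ : Ω ≃+* Ω) * (τ : Ω ≃+* Ω) := rfl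
  rw [h, map_mul, Units.val_mul]

theorem chi_inv (σ : Ω ≃ₐ[ℚ] Ω) : chi σ * chi σ⁻¹ = 1 := by
  rw [← chi_mul, mul_inv_cancel]
  unfold chi
  have h : ((1 : Ω ≃ₐ[ℚ] Ω) : Ω ≃+* Ω) = 1 := rfl
  rw [h, map_one, Units.val_one]

variable {l : ℕ} [Fact l.Prime] {j : Ω →+* PadicAlgCl l}

theorem dec_mul {σ τ : Ω ≃ₐ[ℚ] Ω} (hσ : Dec j σ) (hτ : Dec j τ) : Dec j (σ * τ) := by
  obtain ⟨a, ha⟩ := hσ
  obtain ⟨b, hb⟩ := hτ
  refine ⟨a * b, fun x => ?_⟩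
  rw [AlgEquiv.mul_apply, hb, ha, AlgEquiv.mul_apply]

theorem dec_inv {σ : Ω ≃ₐ[ℚ] Ω} (hσ : Dec j σ) : Dec j σ⁻¹ := by
  obtain ⟨a, ha⟩ := hσ
  refine ⟨a⁻¹, fun x => ?_⟩
  have h : a (j (σ⁻¹ x)) = j x := by
    rw [ha]
    congr 1
    exact σ.apply_symm_apply x
  rw [← h]
  exact a.symm_apply_apply _

theorem norm_dec {σ : Ω ≃ₐ[ℚ] Ω} (hσ : Dec j σ) (x : Ω) : ‖j (σ x)‖ = ‖j x‖ := by
  obtain ⟨a, ha⟩ := hσ
  rw [← ha, norm_aut]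

/-- commutators are in the inertia group -/
theorem inr_comm {σ τ : Ω ≃ₐ[ℚ] Ω} (hσ : Dec j σ) (hτ : Dec j τ) :
    Inr j (σ * τ * (τ * σ)⁻¹) := by
  refine ⟨dec_mul (dec_mul hσ hτ) (dec_inv (dec_mul hτ hσ)), fun x hx => ?_⟩
  set w : Ω := (τ * σ)⁻¹ x with hw
  have h1 : (σ * τ * (τ * σ)⁻¹) x = σ (τ w) := rfl
  have h2 : x = τ (σ w) := by
    have h3 : (τ * σ) ((τ * σ)⁻¹ x) = x := (τ * σ).apply_symm_apply x
    exact h3.symm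
  have h4 : ‖j w‖ ≤ 1 := by
    rw [h2, norm_dec hτ, norm_dec hσ] at hx
    exact hx
  have h5 : j x = j (τ (σ w)) := congrArg j h2
  rw [h1, h5]
  obtain ⟨a, ha⟩ := hσ
  obtain ⟨b, hb⟩ := hτ
  rw [← ha, ← hb, ← hb, ← ha]
  exact res_comm a b h4

end

theorem lt (hNT : Pool.Agent.Q283.LS.S_NT) : Pool.Agent.Q283.LS.S_LT := by
  intro Ω _ _ _ _ K _ l _ j r hr f hf hin
  obtain ⟨τ0, hτK, hτD, hτ1⟩ := hNT Ω K l j r hr
  refine ⟨chi τ0 ^ r - 1, f ⟨τ0, hτK⟩, sub_ne_zero.mpr hτ1, fun σ hσ => ?_⟩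
  set τ : K.fixingSubgroup := ⟨τ0, hτK⟩ with hτ
  have hκ : f (σ * τ * (τ * σ)⁻¹) = 0 := hin _ (inr_comm hσ hτD)
  have hρ : chi (σ * τ * (τ * σ)⁻¹ : K.fixingSubgroup).1 ^ r = 1 := by
    have h1 : (σ * τ * (τ * σ)⁻¹ : K.fixingSubgroup).1 = (σ.1 * τ.1) * (τ.1 * σ.1)⁻¹ := rfl
    have h2 := chi_inv (τ.1 * σ.1)
    rw [h1, chi_mul, chi_mul, mul_comm (chi σ.1), ← chi_mul, h2, one_pow]
  have h1 : f (σ * τ) = f (τ * σ) := by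
    have h2 := hf.coc (σ * τ * (τ * σ)⁻¹) (τ * σ)
    rw [inv_mul_cancel_right, hκ, zero_add] at h2
    rw [h2, hρ, one_mul]
  have h2 := hf.coc σ τ
  have h3 := hf.coc τ σ
  rw [h1, h3] at h2
  have h4 : chi τ0 = chi τ.1 := rfl
  rw [h4]
  linear_combination h2

end Pool.Agent.Q38.LS
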